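import Mathlib

/-!
# MP_59b615_al : profinite coarse structures on `ℤ` are never word metric structures

For every non-empty set `Q` of primes and every `S ⊆ ℤ` the coarse groups `(ℤ, E_Q)` and
`(ℤ, E_Cay(S))` are not coarsely isomorphic.
-/

namespace Pool.Agent.Results.MP_59b615_al.NoCoarseIso

/-- `m` belongs to `Q^*`: a positive integer all of whose prime factors lie in `Q`. -/
def QNum (Q : Set ℕ) (m : ℕ) : Prop := 0 < m ∧ ∀ p : ℕ, p.Prime → p ∣ m → p ∈ Q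

lemma QNum.mul {Q : Set ℕ} {a b : ℕ} (ha : QNum Q a) (hb : QNum Q b) : QNum Q (a * b) := by
  refine ⟨Nat.mul_pos ha.1 hb.1, fun p hp h => ?_⟩
  rcases (Nat.Prime.dvd_mul hp).1 h with h | h
  · exact ha.2 p hp h
  · exact hb.2 p hp h

lemma QNum.one (Q : Set ℕ) : QNum Q 1 :=
  ⟨one_pos, fun _ hp h => absurd (Nat.dvd_one.1 h) hp.one_lt.ne'⟩

/-- The topology `τ_Q` on `ℤ`: the cosets `a + mℤ`, `m ∈ Q^*`, form a basis. -/
@[reducible] def tau (Q : Set ℕ) : TopologicalSpace ℤ where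
  IsOpen U := ∀ x ∈ U, ∃ m : ℕ, QNum Q m ∧ ∀ y : ℤ, (m : ℤ) ∣ y - x → y ∈ U
  isOpen_univ := fun _ _ => ⟨1, QNum.one Q, fun _ _ => trivial⟩
  isOpen_inter := by
    intro U V hU hV x hx
    obtain ⟨m, hm, hm'⟩ := hU x hx.1
    obtain ⟨n, hn, hn'⟩ := hV x hx.2
    refine ⟨m * n, hm.mul hn, fun y hy => ⟨hm' y ?_, hn' y ?_⟩⟩
    · exact dvd_trans (by push_cast; exact dvd_mul_right _ _) hy
    · exact dvd_trans (by push_cast; exact dvd_mul_left _ _) hy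
  isOpen_sUnion := by
    intro s hs x hx
    obtain ⟨U, hU, hxU⟩ := hx
    obtain ⟨m, hm, hm'⟩ := hs U hU x hxU
    exact ⟨m, hm, fun y hy => ⟨U, hU, hm' y hy⟩⟩

/-- The coarse structure `E_Q`: a family (given as the set of its members) is uniformly bounded
iff there is a `τ_Q`-compact `K` such that each member is contained in a translate `k + K`. -/
def UBQ (Q : Set ℕ) (F : Set (Set ℤ)) : Prop :=
  ∃ K : Set ℤ, @IsCompact ℤ (tau Q) K ∧ ∀ A ∈ F, ∃ k : ℤ, A ⊆ (fun x => k + x) '' K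

/-- The word distance `d_S(n,m)`: the least number of elements of `S ∪ (-S)` (with repetition)
summing to `n - m`, and `⊤` if there is no such sum. -/
noncomputable def dS (S : Set ℤ) (n m : ℤ) : ℕ∞ :=
  ⨅ l ∈ {l : List ℤ | (∀ s ∈ l, s ∈ S ∨ -s ∈ S) ∧ l.sum = n - m}, (l.length : ℕ∞)

/-- The coarse structure `E_Cay(S)`: the members have uniformly bounded `d_S`-diameter. -/
def UBCay (S : Set ℤ) (F : Set (Set ℤ)) : Prop :=
  ∃ N : ℕ, ∀ A ∈ F, ∀ x ∈ A, ∀ y ∈ A, dS S x y ≤ N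

/-- A function is controlled if it sends uniformly bounded families to uniformly bounded ones. -/
def Controlled (E E' : Set (Set ℤ) → Prop) (f : ℤ → ℤ) : Prop :=
  ∀ F : Set (Set ℤ), E F → E' ((fun A => f '' A) '' F)

/-- `f` and `f'` are close for the coarse structure `E'` on the target. -/
def Close (E' : Set (Set ℤ) → Prop) (f f' : ℤ → ℤ) : Prop :=
  E' (Set.range fun x => ({f x, f' x} : Set ℤ))

/-- A coarse isomorphism of coarse groups `(ℤ, E) → (ℤ, E')`. -/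
def CoarseIso (E E' : Set (Set ℤ) → Prop) : Prop :=
  ∃ f : ℤ → ℤ, Controlled E E' f ∧
    E' (Set.range fun p : ℤ × ℤ => ({f (p.1 + p.2), f p.1 + f p.2} : Set ℤ)) ∧
    ∃ g : ℤ → ℤ, Controlled E' E g ∧ Close E (g ∘ f) id ∧ Close E' (f ∘ g) id

section topology

variable {Q : Set ℕ}

lemma isOpen_tau {U : Set ℤ} : @IsOpen ℤ (tau Q) U ↔
    ∀ x ∈ U, ∃ m : ℕ, QNum Q m ∧ ∀ y : ℤ, (m : ℤ) ∣ y - x → y ∈ U := Iff.rfl

lemma coset_open {a : ℤ} {m : ℕ} (hm : QNum Q m) :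
    @IsOpen ℤ (tau Q) {x : ℤ | (m : ℤ) ∣ x - a} := by
  rw [isOpen_tau]
  intro x hx
  refine ⟨m, hm, fun y hy => ?_⟩
  have : y - a = (y - x) + (x - a) := by ring
  show (m : ℤ) ∣ y - a
  rw [this]
  exact dvd_add hy hx

lemma coset_closed {a : ℤ} {m : ℕ} (hm : QNum Q m) :
    @IsClosed ℤ (tau Q) {x : ℤ | (m : ℤ) ∣ x - a} := by
  let _ := tau Q
  rw [← isOpen_compl_iff]
  show @IsOpen ℤ (tau Q) _
  rw [isOpen_tau]
  intro x hx
  refine ⟨m, hm, fun y hy hya => hx ?_⟩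
  have : x - a = (y - a) - (y - x) := by ring
  show (m : ℤ) ∣ x - a
  rw [this]
  exact dvd_sub hya hy

lemma pow_qnum {p : ℕ} (hp : p.Prime) (hpQ : p ∈ Q) (e : ℕ) : QNum Q (p ^ e) := by
  refine ⟨pow_pos hp.pos _, fun q hq h => ?_⟩
  have := (Nat.prime_dvd_prime_iff_eq hq hp).1 (hq.dvd_of_dvd_pow h)
  rw [this]; exact hpQ

lemma t2 {p : ℕ} (hp : p.Prime) (hpQ : p ∈ Q) : @T2Space ℤ (tau Q) := by
  let _ := tau Q
  refine ⟨fun x y hxy => ?_⟩
  have hne : x - y ≠ 0 := sub_ne_zero.2 hxy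
  obtain ⟨e, he⟩ : ∃ e : ℕ, ¬ ((p ^ e : ℕ) : ℤ) ∣ x - y := by
    refine ⟨(x - y).natAbs, fun h => ?_⟩
    have h1 := Int.natAbs_dvd_natAbs.2 h
    rw [Int.natAbs_natCast] at h1
    have h2 := Nat.le_of_dvd (Int.natAbs_pos.2 hne) h1
    have h3 := Nat.lt_pow_self (n := (x - y).natAbs) hp.one_lt
    omega
  refine ⟨{z : ℤ | ((p ^ e : ℕ) : ℤ) ∣ z - x}, {z : ℤ | ((p ^ e : ℕ) : ℤ) ∣ z - y},
    coset_open (pow_qnum hp hpQ e), coset_open (pow_qnum hp hpQ e), ?_, ?_, ?_⟩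
  · simp
  · simp
  · rw [Set.disjoint_left]
    intro z hz1 hz2
    apply he
    have : x - y = (z - y) - (z - x) := by ring
    rw [this]
    exact dvd_sub hz2 hz1

lemma contAdd : @ContinuousAdd ℤ (tau Q) _ := by
  let _ := tau Q
  refine ⟨?_⟩
  rw [continuous_def]
  intro U hU
  rw [isOpen_prod_iff]
  intro a b hab
  obtain ⟨m, hm, hm'⟩ := (isOpen_tau (Q := Q)).1 hU (a + b) hab
  refine ⟨{x : ℤ | (m : ℤ) ∣ x - a}, {x : ℤ | (m : ℤ) ∣ x - b}, coset_open hm, coset_open hm,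
    ?_, ?_, ?_⟩
  · simp
  · simp
  · rintro ⟨x, y⟩ ⟨hx, hy⟩
    refine hm' (x + y) ?_
    have : x + y - (a + b) = (x - a) + (y - b) := by ring
    rw [this]
    exact dvd_add hx hy

lemma contNeg : @ContinuousNeg ℤ (tau Q) _ := by
  let _ := tau Q
  refine ⟨?_⟩
  rw [continuous_def]
  intro U hU
  show @IsOpen ℤ (tau Q) _
  rw [isOpen_tau]
  intro x hx
  obtain ⟨m, hm, hm'⟩ := (isOpen_tau (Q := Q)).1 hU (-x) hx
  refine ⟨m, hm, fun y hy => hm' (-y) ?_⟩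
  have : -y - -x = -(y - x) := by ring
  rw [this]
  exact (dvd_neg).2 hy

/-- A compact subset of `(ℤ, τ_Q)` contains no coset `a + mℤ` with `m ∈ Q^*`. -/
lemma compact_no_coset {p : ℕ} (hp : p.Prime) (hpQ : p ∈ Q) {C : Set ℤ}
    (hC : @IsCompact ℤ (tau Q) C) {a : ℤ} {m : ℕ} (hm : QNum Q m) :
    ¬ {x : ℤ | (m : ℤ) ∣ x - a} ⊆ C := by
  intro hsub
  let _ := tau Q
  have _ : T2Space ℤ := t2 hp hpQ
  set V : Set ℤ := {x : ℤ | (m : ℤ) ∣ x - a} with hV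
  have hVc : IsCompact V := hC.of_isClosed_subset (coset_closed hm) hsub
  have _ : CompactSpace V := isCompact_iff_compactSpace.1 hVc
  have _ : Nonempty V := ⟨⟨a, by simp [hV]⟩⟩
  have _ : Countable V := inferInstance
  obtain ⟨v, hv⟩ := nonempty_interior_of_iUnion_of_closed (X := V) (f := fun v : V => ({v} : Set V))
    (fun i => isClosed_singleton) (by ext x; simp)
  have hop : IsOpen ({v} : Set V) := by
    obtain ⟨w, hw⟩ := hv
    have hw' : w = v := by simpa using interior_subset hw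
    have h1 : interior ({v} : Set V) = {v} := by
      apply Set.Subset.antisymm interior_subset
      intro z hz
      have : z = v := by simpa using hz
      rw [hw'] at hw
      rw [this]; exact hw
    rw [← h1]; exact isOpen_interior
  have hVo : IsOpen V := coset_open hm
  have hop' : IsOpen ((fun x : V => (x : ℤ)) '' ({v} : Set V)) :=
    hVo.isOpenMap_subtype_val _ hop
  rw [Set.image_singleton] at hop'
  obtain ⟨n, hn, hn'⟩ := (isOpen_tau (Q := Q)).1 hop' v.1 rfl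
  have := hn' (v.1 + n) (by simp)
  have hn0 := hn.1
  have h2 : (v.1 : ℤ) + n = v.1 := this
  omega

/-- a number of `Q^*` divisible by all elements of `Q^*` up to `i`. -/
noncomputable def MM (Q : Set ℕ) (i : ℕ) : ℕ := by
  classical
  exact ∏ m ∈ (Finset.range (i + 1)).filter (fun m => QNum Q m), m

lemma MM_qnum (i : ℕ) : QNum Q (MM Q i) := by
  classical
  unfold MM
  refine Finset.prod_induction _ (QNum Q) (fun a b ha hb => ha.mul hb) (QNum.one Q) ?_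
  intro m hm
  exact (Finset.mem_filter.1 hm).2

lemma dvd_MM {m i : ℕ} (hm : QNum Q m) (hi : m ≤ i) : m ∣ MM Q i := by
  classical
  unfold MM
  exact Finset.dvd_prod_of_mem _ (Finset.mem_filter.2 ⟨Finset.mem_range.2 (by omega), hm⟩)

/-- `E_Q` is not countably generated: no sequence of compact sets is cofinal (even up to
translations). -/
lemma not_cofinal {p : ℕ} (hp : p.Prime) (hpQ : p ∈ Q) (C : ℕ → Set ℤ)
    (hC : ∀ n, @IsCompact ℤ (tau Q) (C n)) :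
    ∃ K : Set ℤ, @IsCompact ℤ (tau Q) K ∧ ∀ n, ¬ K ⊆ C n := by
  let _ := tau Q
  have hx : ∀ i, ∃ x : ℤ, (MM Q i : ℤ) ∣ x ∧ x ∉ C i := by
    intro i
    have := compact_no_coset hp hpQ (hC i) (a := 0) (MM_qnum (Q := Q) i)
    rw [Set.not_subset] at this
    obtain ⟨x, hx1, hx2⟩ := this
    exact ⟨x, by simpa using hx1, hx2⟩
  choose x hx1 hx2 using hx
  have ht : Filter.Tendsto x Filter.atTop (nhds (0 : ℤ)) := by
    rw [tendsto_nhds]
    intro U hU h0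
    obtain ⟨m, hm, hm'⟩ := (isOpen_tau (Q := Q)).1 hU 0 h0
    filter_upwards [Filter.eventually_ge_atTop m] with i hi
    apply hm'
    rw [sub_zero]
    exact dvd_trans (Int.natCast_dvd_natCast.2 (dvd_MM hm hi)) (hx1 i)
  refine ⟨insert 0 (Set.range x), ht.isCompact_insert_range, fun n hn => hx2 n ?_⟩
  exact hn (Set.mem_insert_of_mem _ ⟨n, rfl⟩)

end topology

/-- **The answer to Q1 is no**: for every non-empty set `Q` of primes and every `S ⊆ ℤ`, the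
coarse groups `(ℤ, E_Q)` and `(ℤ, E_Cay(S))` are not coarsely isomorphic. -/
theorem result : ∀ Q : Set ℕ, Q.Nonempty → (∀ p ∈ Q, p.Prime) → ∀ S : Set ℤ,
    ¬ CoarseIso (UBQ Q) (UBCay S) := by
  rintro Q ⟨p, hpQ⟩ hQ S ⟨f, hf, -, g, hg, hgf, -⟩
  have hp := hQ p hpQ
  let _ := tau Q
  have _ : ContinuousAdd ℤ := contAdd (Q := Q)
  have _ : ContinuousNeg ℤ := contNeg (Q := Q)
  -- the full family of sets of diameter at most `n`
  have h1 : ∀ n : ℕ, ∃ K : Set ℤ, IsCompact K ∧ ∀ B : Set ℤ,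
      (∀ x ∈ B, ∀ y ∈ B, dS S x y ≤ n) → ∃ k : ℤ, g '' B ⊆ (fun x => k + x) '' K := by
    intro n
    obtain ⟨K, hK, hK'⟩ := hg {B : Set ℤ | ∀ x ∈ B, ∀ y ∈ B, dS S x y ≤ n} ⟨n, fun A hA => hA⟩
    exact ⟨K, hK, fun B hB => hK' _ ⟨B, hB, rfl⟩⟩
  choose K hK hK' using h1
  obtain ⟨L, hL, hL'⟩ := hgf
  have h2 : ∀ x : ℤ, ∃ u ∈ L, ∃ v ∈ L, x = g (f x) + (u + -v) := by
    intro x
    obtain ⟨k, hk⟩ := hL' _ ⟨x, rfl⟩
    obtain ⟨v, hv, hv'⟩ := hk (Set.mem_insert _ _)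
    obtain ⟨u, hu, hu'⟩ := hk (Set.mem_insert_of_mem _ rfl)
    refine ⟨u, hu, v, hv, ?_⟩
    simp only [Function.comp, id] at hv' hu'
    rw [← hv', ← hu']
    ring
  obtain ⟨e, he⟩ := exists_surjective_nat (ℕ × ℤ)
  set C : ℕ → Set ℤ := fun i =>
    (fun x => (e i).2 + x) '' ((fun q : (ℤ × ℤ) × ℤ => q.1.1 + (q.1.2 + -q.2)) ''
      ((K (e i).1 ×ˢ L) ×ˢ L)) with hCdef
  have hC : ∀ i, IsCompact (C i) := by
    intro i
    refine IsCompact.image ?_ (by fun_prop)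
    refine IsCompact.image ?_ (by fun_prop)
    exact ((hK _).prod hL).prod hL
  obtain ⟨T, hT, hT'⟩ := not_cofinal hp hpQ C hC
  obtain ⟨N, hN⟩ := hf {T} ⟨T, hT, fun A hA => ⟨0, by
    rw [Set.mem_singleton_iff.1 hA]; intro x hx; exact ⟨x, hx, by simp⟩⟩⟩
  obtain ⟨k, hk⟩ := hK' N (f '' T) (hN _ ⟨T, rfl, rfl⟩)
  obtain ⟨i, hi⟩ := he (N, k)
  apply hT' i
  intro x hx
  obtain ⟨u, hu, v, hv, hxuv⟩ := h2 x
  obtain ⟨y, hy, hy'⟩ := hk ⟨f x, ⟨x, hx, rfl⟩, rfl⟩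
  simp only [hCdef, hi]
  refine ⟨y + (u + -v), ⟨((y, u), v), ⟨⟨hy, hu⟩, hv⟩, rfl⟩, ?_⟩
  simp only at hy' ⊢
  rw [hxuv, ← hy']
  ring

end Pool.Agent.Results.MP_59b615_al.NoCoarseIso
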